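import Pool.Agent.TH710.SP.Res
import Pool.Agent.TH143.GT.Close

/-!
Special closed subvarieties of varieties given by nested sums of high powers of linear forms: the
linear hull (adapted from TH710/SP/Main.lean and Curve.lean, without the hypothesis that the
subvariety is a component).
-/

set_option autoImplicit false
set_option linter.all false

open FF MvPolynomial Pool.Agent.W603.LV Pool.Agent.W603.GR Pool.Agent.W603.GW
  Pool.Agent.W602.GT Pool.Agent.W603.GX Pool.Agent.W603.GY Pool.Agent.TH710.ND Pool.Agent.TH710.SP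

namespace Pool.Agent.Y691.CS

variable {k : Type} [Field k] {n : ℕ} {ι κ : Type}

/-- The `F i` vanish on the linear hull of the variety with generic point `y`, with coordinates
`m b`, and the hypersurfaces `Q j = 0` meet it in the coordinate hyperplanes with index in the range
of `e`. -/
structure HullPair {K : Type} [Field K] [Algebra k K] (F : ι → MvPolynomial (Fin (n + 1)) k)
    (Q : κ → MvPolynomial (Fin (n + 1)) k)
    (y : Fin (n + 1) → K) {r q : ℕ} (m v : Fin r → Fin (n + 1) → k) (e : Fin q → Fin r)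
    (a : κ → Fin q) (c : κ → k) : Prop where
  frame : Frame y m v
  van : ∀ x ∈ Hull k y, ∀ i, Pool.Agent.W602.GT.val x (F i) = 0
  inj : Function.Injective e
  surj : Function.Surjective a
  cne : ∀ j, c j ≠ 0
  pos : ∀ j, 0 < (Q j).totalDegree
  bd : ∀ j, ∀ x ∈ Hull k y, Pool.Agent.W602.GT.val x (Q j) =
    c j * lin (m (e (a j))) x ^ (Q j).totalDegree

/-- **Linear spaces and hyperplanes.** -/
theorem hull_fin [IsAlgClosed k] [Finite κ] {F : ι → MvPolynomial (Fin (n + 1)) k}
    {Q : κ → MvPolynomial (Fin (n + 1)) k} {K : Type} [Field K] [Algebra k K] 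
    {y : Fin (n + 1) → K}
    (hdpos : ∀ j, 0 < (Q j).totalDegree) (lq : κ → Fin (n + 1) → k)
    (hlq0 : ∀ j, lin (lq j) y ≠ 0)
    (hFx : ∀ x ∈ Hull k y, ∀ i, Pool.Agent.W602.GT.val x (F i) = 0)
    (c0 : κ → k) (hc0 : ∀ j, c0 j ≠ 0)
    (hQx : ∀ j, ∀ x ∈ Hull k y, Pool.Agent.W602.GT.val x (Q j) =
      c0 j * lin (lq j) x ^ (Q j).totalDegree)
    (hcirc : ∀ (m : ℕ) (T : Fin (m + 1) → K),
      (∀ a, ∃ (c : k) (j : κ), c ≠ 0 ∧ T a = c • lin (lq j) y) →
      ∑ a, T a = 0 → LinearIndependent k (fun l => T ((Fin.last m).succAbove l)) →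
      ∀ a b, ∃ c : k, T a / T b = algebraMap k K c) :
    ∃ (r q : ℕ) (m v : Fin r → Fin (n + 1) → k) (e : Fin q → Fin r) (a : κ → Fin q) (c : κ → k),
      HullPair F Q y m v e a c := by
  classical
  have := Fintype.ofFinite κ
  have hinf : Infinite k := inferInstance
  obtain ⟨q, e0, a0, hli, ha0⟩ := Pool.Agent.TH710.SP.indep_of_circ (k := k) (fun j => lin (lq j) y) hlq0 hcirc
  have hsurj : Function.Surjective a0 := by
    intro b
    refine ⟨e0 b, ?_⟩
    obtain ⟨c, hc, h1⟩ := ha0 (e0 b)
    by_contra hne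
    have h2 := Pool.Agent.TH710.SP.indep_of_circ.linearIndependent_pair_of hli (Ne.symm hne)
    have h3 := LinearIndependent.pair_iff.1 h2 1 (-c) (by
      rw [one_smul, neg_smul, ← h1, add_neg_cancel])
    exact one_ne_zero h3.1
  obtain ⟨r, m, v, e, hfr, he, hme⟩ := exists_frame' (fun b => lq (e0 b)) hli
  choose d hd0 hd using ha0
  refine ⟨r, q, m, v, e, a0, fun j => c0 j * d j ^ (Q j).totalDegree, hfr, hFx, he, hsurj,
    fun j => mul_ne_zero (hc0 j) (pow_ne_zero _ (hd0 j)), hdpos, ?_⟩
  · -- the boundary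
    intro j x hx
    rw [hQx j x hx, hme]
    have h1 : lin (lq j) x = d j * lin (lq (e0 (a0 j))) x := by
      have h2 : lin (lq j - d j • lq (e0 (a0 j))) y = 0 := by
        have h5 : lin (lq j - d j • lq (e0 (a0 j))) y =
            lin (lq j) y - algebraMap k K (d j) * lin (lq (e0 (a0 j))) y := by
          unfold lin
          simp only [Pi.sub_apply, Pi.smul_apply, smul_eq_mul, map_sub, map_mul, sub_mul,
            Finset.sum_sub_distrib, Finset.mul_sum, mul_assoc]
        rw [h5, ← Algebra.smul_def, ← hd j, sub_self]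
      have h6 := hx _ h2
      have h5 : lin (lq j - d j • lq (e0 (a0 j))) x =
          lin (lq j) x - d j * lin (lq (e0 (a0 j))) x := by
        unfold lin
        simp only [Pi.sub_apply, Pi.smul_apply, smul_eq_mul, map_sub, map_mul, sub_mul,
          Finset.sum_sub_distrib, Finset.mul_sum, mul_assoc, Algebra.algebraMap_self,
          RingHom.id_apply]
      rw [h5] at h6
      exact sub_eq_zero.1 h6
    rw [h1, mul_pow]
    ring

/-- **The structure theorem.** -/
theorem hull_core [IsAlgClosed k] [CharZero k] [Finite κ] {F : ι → MvPolynomial (Fin (n + 1)) k}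
    {Q : κ → MvPolynomial (Fin (n + 1)) k} {s N H : ℕ}
    (hF : ∀ i, IsNested s N H (F i)) (hQ : ∀ j, IsNested s N H (Q j)) (hN : bnd n s H ≤ N)
    {K : Type} [Field K] [Algebra k K] {w : ℕ}
    {y : Fin (n + 1) → K} (hy : SubVarQ F Q K w y)
    (hgen' : ∀ o : Place k K → ℤ, ∀ A : CFam k K, (∃ c',
      Gen (OffAny Q y) N (2 * s) ((H + 1) * (2 * s * (2 * s))) o IsLin y c' A) →
      ∀ i a b, ∃ c : k, A.T i a / A.T i b = algebraMap k K c)
    (hcirc : κ → ∀ (m : ℕ) (T : Fin (m + 1) → K), (∀ a, T a ≠ 0) →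
      ∑ a, T a = 0 → LinearIndependent k (fun l => T ((Fin.last m).succAbove l)) →
      (∀ P, ¬ OffAny Q y P → ∀ a b, P.ord (T a) = P.ord (T b)) →
      ∀ a b, ∃ c : k, T a / T b = algebraMap k K c) :
    ∃ (r q : ℕ) (m v : Fin r → Fin (n + 1) → k) (e : Fin q → Fin r) (a : κ → Fin q) (c : κ → k),
      HullPair F Q y m v e a c := by
  classical
  have := Fintype.ofFinite κ
  have hinf : Infinite k := inferInstance
  have hN1 : 1 ≤ N := le_trans (by unfold bnd; omega) hN
  have hQne : ∀ j, Q j ≠ 0 := by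
    intro j h0
    apply hy.off j
    rw [h0]
    unfold Pool.Agent.W602.GT.val
    rw [map_zero]
  have hhom : ∀ j, (Q j).IsHomogeneous (Q j).totalDegree := fun j =>
    nested_hom (hQ j) (hQne j)
  have hdpos : ∀ j, 0 < (Q j).totalDegree := fun j => nested_pos (hQ j) hN1 (hQne j)
  obtain ⟨o, ho⟩ := exists_o hhom hy.ne hy.off
  have hgen := hgen' o
  have hbot : ∀ {z : K}, z ∈ (⊥ : IntermediateField k K) ↔ ∃ c : k, z = algebraMap k K c := by
    intro z
    rw [IntermediateField.mem_bot]
    constructor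
    · rintro ⟨c, hc⟩
      exact ⟨c, hc.symm⟩
    · rintro ⟨c, hc⟩
      exact ⟨c, hc.symm⟩
  have hroot : Root (⊥ : IntermediateField k K) := by
    intro z d hd hz
    rw [hbot] at hz ⊢
    obtain ⟨c, hc⟩ := hz
    have h1 : IsAlgebraic k (z ^ d) := by
      rw [hc]
      exact isAlgebraic_algebraMap c
    exact const_of_algebraic (h1.of_pow hd)
  obtain ⟨lq, hG, hlq⟩ := good_of (W := (⊥ : IntermediateField k K)) hF hQ hN1 hy.mem hy.off ho
    hroot (fun c' A hA i a b => hbot.2 (hgen A ⟨c', hA⟩ i a b))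
  -- the points of the hull
  have hinv : ∀ x ∈ Hull k y, InV (PrC (⊥ : IntermediateField k K) y) y
      (fun i => algebraMap k K (x i)) := by
    intro x hx
    constructor
    · intro l hl
      rw [lin_algMap, hx l hl, map_zero]
    · rintro ⟨p1, p2⟩ ⟨h1, h2, h3⟩
      obtain ⟨c, hc⟩ := hbot.1 h3
      simp only at h1 h2 hc ⊢
      have h4 : lin (p1 - c • p2) y = 0 := by
        have h5 : lin (p1 - c • p2) y = lin p1 y - algebraMap k K c * lin p2 y := by
          unfold lin
          simp only [Pi.sub_apply, Pi.smul_apply, smul_eq_mul, map_sub, map_mul, sub_mul,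
            Finset.sum_sub_distrib, Finset.mul_sum, mul_assoc]
        rw [h5, ← hc, div_mul_cancel₀ _ h2, sub_self]
      have h6 := hx _ h4
      have h5 : lin (p1 - c • p2) x = lin p1 x - c * lin p2 x := by
        unfold lin
        simp only [Pi.sub_apply, Pi.smul_apply, smul_eq_mul, map_sub, map_mul, sub_mul,
          Finset.sum_sub_distrib, Finset.mul_sum, mul_assoc, Algebra.algebraMap_self,
          RingHom.id_apply]
      rw [h5, sub_eq_zero] at h6
      rw [lin_algMap, lin_algMap, h6, map_mul, hc, Algebra.algebraMap_self, RingHom.id_apply]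
  have hFx : ∀ x ∈ Hull k y, ∀ i, Pool.Agent.W602.GT.val x (F i) = 0 := by
    intro x hx i
    have h1 := hG.van K _ (hinv x hx) i
    rw [val_algMap] at h1
    exact (map_eq_zero _).1 h1
  have hcc : ∀ j, ∃ c : k, c ≠ 0 ∧ Pool.Agent.W602.GT.val y (Q j) /
      lin (lq j) y ^ (Q j).totalDegree = algebraMap k K c := by
    intro j
    obtain ⟨c, hc⟩ := hbot.1 (inv_mem (hlq j))
    rw [inv_div] at hc
    refine ⟨c, ?_, hc⟩
    rintro rfl
    rw [map_zero, div_eq_zero_iff] at hc
    rcases hc with h | h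
    · exact hy.off j h
    · exact pow_ne_zero _ (hG.lq_ne j) h
  choose c0 hc0 hcv using hcc
  have hQx : ∀ j, ∀ x ∈ Hull k y, Pool.Agent.W602.GT.val x (Q j) =
      c0 j * lin (lq j) x ^ (Q j).totalDegree := by
    intro j x hx
    have h1 := hG.lq_val K _ (hinv x hx) j
    rw [val_algMap, lin_algMap, hcv, Algebra.algebraMap_self, RingHom.id_apply, ← map_pow,
      ← map_mul] at h1
    exact (algebraMap k K).injective h1
  -- the orders of the boundary forms
  have hord : ∀ P, ¬ OffAny Q y P → ∀ j, P.ord (lin (lq j) y) = o P := by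
    intro P hP j
    have h1 := ho P hP j
    have h2 : Pool.Agent.W602.GT.val y (Q j) = algebraMap k K (c0 j) *
        lin (lq j) y ^ (Q j).totalDegree := by
      rw [← hcv j, div_mul_cancel₀ _ (pow_ne_zero _ (hG.lq_ne j))]
    rw [h2, P.ord_mul (by rw [Ne, map_eq_zero]; exact hc0 j) (pow_ne_zero _ (hG.lq_ne j)),
      P.ord_const (hc0 j), zero_add, P.ord_pow] at h1
    have h3 : ((Q j).totalDegree : ℤ) ≠ 0 := by exact_mod_cast (hdpos j).ne'
    exact mul_left_cancel₀ h3 h1
  exact hull_fin hdpos lq hG.lq_ne hFx c0 hc0 hQx (by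
    intro m T hT hsum hlin
    have hTne : ∀ a, T a ≠ 0 := by
      intro a
      obtain ⟨c, j, hc, h1⟩ := hT a
      rw [h1]
      exact smul_ne_zero hc (hG.lq_ne j)
    have hTo : ∀ P, ¬ OffAny Q y P → ∀ a, P.ord (T a) = o P := by
      intro P hP a
      obtain ⟨c, j, hc, h1⟩ := hT a
      rw [h1, ord_smul' P hc, hord P hP]
    obtain ⟨_, j, -, -⟩ := hT 0
    exact hcirc j m T hTne hsum hlin fun P hP a b => by rw [hTo P hP, hTo P hP])

/-- **The structure theorem, for a class of families.** -/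
theorem hull_main [IsAlgClosed k] [CharZero k] [Finite κ] {F : ι → MvPolynomial (Fin (n + 1)) k}
    {Q : κ → MvPolynomial (Fin (n + 1)) k} {s N H : ℕ}
    (hF : ∀ i, IsNested s N H (F i)) (hQ : ∀ j, IsNested s N H (Q j)) (hN : bnd n s H ≤ N)
    {K : Type} [Field K] [Algebra k K] {w : ℕ}
    {y : Fin (n + 1) → K} (hy : SubVarQ F Q K w y)
    (hfam : ∀ (G : CFam k K → Prop) (N' s' c' : ℕ), (∀ A, G A → A.Ok (OffAny Q y) N' s' c') →
      w * (c' * ((s' + 1) * tn (s' - 1))) ≤ N' →
      ∀ A, G A → ∀ i a b, ∃ c : k, A.T i a / A.T i b = algebraMap k K c) :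
    ∃ (r q : ℕ) (m v : Fin r → Fin (n + 1) → k) (e : Fin q → Fin r) (a : κ → Fin q) (c : κ → k),
      HullPair F Q y m v e a c := by
  have halg : Algebra.IsAlgebraic (coords k y) K := by
    rw [hy.gen]
    infer_instance
  have hwn := dim_le hy.ne halg hy.dim
  refine hull_core hF hQ hN hy (fun o => ?_) (fun _ m T hTne hsum hlin hT a b => ?_)
  · refine hfam _ N (2 * s) ((H + 1) * (2 * s * (2 * s))) ?_ ?_
    · rintro A ⟨c', hA⟩
      exact hA.ok.1.mono hA.ok.2
    · refine le_trans ?_ hN
      refine le_trans (Nat.mul_le_mul_right _ hwn) ?_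
      unfold bnd
      omega
  · have h1 := hfam (fun A => A = CFam.single T hTne hsum hlin)
      (w * (1 * ((m + 1 + 1) * tn (m + 1 - 1)))) (m + 1) 1 (by
        rintro A rfl
        refine ⟨le_rfl, fun _ => le_rfl, fun P hP => Or.inl fun _ a b => ?_⟩
        exact hT P hP a b) le_rfl _ rfl
    exact h1 () a b

/-- **Special nested varieties.** -/
theorem hull_of_special [IsAlgClosed k] [CharZero k] [Finite κ]
    {F : ι → MvPolynomial (Fin (n + 1)) k}
    {Q : κ → MvPolynomial (Fin (n + 1)) k} {s N H : ℕ}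
    (hF : ∀ i, IsNested s N H (F i)) (hQ : ∀ j, IsNested s N H (Q j)) (hN : bnd n s H ≤ N)
    {K : Type} [Field K] [Algebra k K] {w : ℕ}
    {y : Fin (n + 1) → K} (hy : SubVarQ F Q K w y)
    (hs : Special k K w (OffAny Q y)) :
    ∃ (r q : ℕ) (m v : Fin r → Fin (n + 1) → k) (e : Fin q → Fin r) (a : κ → Fin q) (c : κ → k),
      HullPair F Q y m v e a c :=
  hull_main hF hQ hN hy fun G _ _ _ hG hN' => const_of_special hy.dim G hG hN' hs

section curve

variable {K : Type} [Field K] [Algebra ℂ K] {Q : κ → MvPolynomial (Fin (n + 1)) ℂ}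
  {y : Fin (n + 1) → K} {f : ℂ → Fin (n + 1) → ℂ}

/-- **Nested varieties with a Zariski-dense entire curve.** -/
theorem hull_of_curve [Finite κ] (hn : 1 ≤ n) {F : ι → MvPolynomial (Fin (n + 1)) ℂ} {s N H : ℕ}
    (hF : ∀ i, IsNested s N H (F i)) (hQ : ∀ j, IsNested s N H (Q j)) (hN : bnd n s H ≤ N)
    {w : ℕ} (hy : SubVarQ F Q K w y) (hf : DenseCurve Q y f) :
    ∃ (r q : ℕ) (m v : Fin r → Fin (n + 1) → ℂ) (e : Fin q → Fin r) (a : κ → Fin q) (c : κ → ℂ),
      HullPair F Q y m v e a c := by
  classical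
  have hN1 : 1 ≤ N := le_trans (by unfold bnd; omega) hN
  have hQne : ∀ j, Q j ≠ 0 := by
    intro j h0
    apply hy.off j
    rw [h0]
    unfold Pool.Agent.W602.GT.val
    rw [map_zero]
  have hdpos : ∀ j, 0 < (Q j).totalDegree := fun j => nested_pos (hQ j) hN1 (hQne j)
  have hfd := hf.1
  have hfj : ∀ j, Differentiable ℂ (fun z => f z j) := fun j => by
    rw [differentiable_pi] at hfd
    exact hfd j
  have hlind : ∀ l : Fin (n + 1) → ℂ, Differentiable ℂ (fun z => lin l (f z)) := by
    intro l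
    unfold lin
    apply Differentiable.fun_sum
    intro i _
    exact (hfj i).const_mul _
  -- functionals
  have hfun : ∀ x ∈ Hull ℂ y, ∃ Φ : (ℂ → ℂ) →ₗ[ℂ] ℂ, ∀ i, Φ (fun z => f z i) = x i := by
    intro x hx
    refine exists_functional f x fun l hl => ?_
    exact hx l ((hf.lin_iff l).2 hl)
  have hFf : ∀ z i, eval (f z) (F i) = 0 := by
    intro z i
    rw [← Pool.Agent.W602.GT.val_eval]
    exact (hf.2.1 z).1.2 _ (hF i).form (hy.mem i)
  have hFx : ∀ x ∈ Hull ℂ y, ∀ i, Pool.Agent.W602.GT.val x (F i) = 0 := by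
    intro x hx i
    obtain ⟨Φ, hΦ⟩ := hfun x hx
    have h1 := (tower_of_nested hn hN (hF i)).estab f hfd (fun z => hFf z i) Φ
    rw [Pool.Agent.W602.GT.val_eval, ← h1]
    congr 2
    funext j
    exact (hΦ j).symm
  -- roots of the boundary functions
  have hroot : ∀ j, ∃ r : ℂ → ℂ, Differentiable ℂ r ∧
      ∀ z, r z ^ (Q j).totalDegree = eval (f z) (Q j) := fun j =>
    Pool.Agent.H159R3.Toric.root _ (Pool.Agent.TH710.NW.eval_diff hfj (Q j)) (fun z => by
      rw [← Pool.Agent.W602.GT.val_eval]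
      exact (hf.2.1 z).2 j) (hdpos j)
  choose r hr hrQ using hroot
  have hlog : ∀ j (Φ : (ℂ → ℂ) →ₗ[ℂ] ℂ), eval (fun i => Φ (fun z => f z i)) (Q j) =
      Φ (r j) ^ (Q j).totalDegree := fun j Φ =>
    (towerLog_of_nested hn hN (hQ j) (hQne j)).estab f (r j) hfd (hr j) (hrQ j) Φ
  have hrlin : ∀ j, ∃ l : Fin (n + 1) → ℂ, r j = fun z => lin l (f z) := by
    intro j
    have hmem : r j ∈ Submodule.span ℂ (Set.range fun i => fun z => f z i) := by
      by_contra hcon
      obtain ⟨φ, hφ, hφ2⟩ := Submodule.exists_le_ker_of_notMem hcon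
      have h1 := hlog j φ
      have h2 : (fun i => φ (fun z => f z i)) = (fun _ => 0 : Fin (n + 1) → ℂ) := by
        funext i
        exact hφ2 (Submodule.subset_span ⟨i, rfl⟩)
      have h3 := hlog j 0
      have h4 : (fun i => (0 : (ℂ → ℂ) →ₗ[ℂ] ℂ) (fun z => f z i)) =
          (fun _ => 0 : Fin (n + 1) → ℂ) := by
        funext i
        rfl
      rw [h4] at h3
      rw [h2, h3, LinearMap.zero_apply, zero_pow (hdpos j).ne'] at h1
      exact pow_ne_zero _ hφ h1.symm
    obtain ⟨l, hl⟩ := (Submodule.mem_span_range_iff_exists_fun ℂ).1 hmem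
    refine ⟨l, ?_⟩
    rw [← hl]
    funext z
    rw [Finset.sum_apply, lin_base]
    rfl
  choose lq hlq using hrlin
  have hr0 : ∀ j z, lin (lq j) (f z) ≠ 0 := by
    intro j z h0
    apply (hf.2.1 z).2 j
    rw [Pool.Agent.W602.GT.val_eval, ← hrQ, hlq]
    simp only
    rw [h0, zero_pow (hdpos j).ne']
  have hlq0 : ∀ j, lin (lq j) y ≠ 0 := by
    intro j h0
    exact hr0 j 0 ((hf.lin_iff _).1 h0 0)
  refine hull_fin hdpos lq hlq0 hFx (fun _ => 1) (fun _ => one_ne_zero) ?_ ?_
  · intro j x hx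
    obtain ⟨Φ, hΦ⟩ := hfun x hx
    have h1 := hlog j Φ
    have h2 : (fun i => Φ (fun z => f z i)) = x := funext hΦ
    rw [h2] at h1
    rw [Pool.Agent.W602.GT.val_eval, h1, one_mul]
    congr 1
    rw [hlq j, lin_base]
    have h3 : (fun z => lin (lq j) (f z)) = ∑ i, lq j i • (fun z => f z i) := by
      funext z
      rw [Finset.sum_apply, lin_base]
      rfl
    rw [h3, map_sum]
    refine Finset.sum_congr rfl fun i _ => ?_
    rw [map_smul, hΦ, smul_eq_mul]
  · -- circuits have constant ratios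
    intro m T hT hsum hlin a b
    choose c j hc hTj using hT
    let l' : Fin (m + 1) → Fin (n + 1) → ℂ := fun a => c a • lq (j a)
    have hTl : ∀ a, T a = lin (l' a) y := fun a => by
      rw [hTj, ← lin_smul_left]
    let R : Fin (m + 1) → ℂ → ℂ := fun a z => lin (l' a) (f z)
    have hR0 : ∀ a z, R a z ≠ 0 := by
      intro a z
      simp only [R, l']
      rw [lin_smul_left]
      exact smul_ne_zero (hc a) (hr0 _ _)
    obtain ⟨σ, hσ⟩ := Pool.Agent.H159R3.War.class_span R (fun a => hlind _) hR0 b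
    let A : Finset (Fin (m + 1)) := Finset.univ.filter fun a => ∃ α : ℂ, ∀ z, R a z = α * R b z
    have hzero : ∀ z, ∑ a, R a z = 0 := by
      have h1 : lin (∑ a, l' a) y = 0 := by
        rw [lin_sum_left, ← hsum]
        exact Finset.sum_congr rfl fun a _ => (hTl a).symm
      intro z
      have h2 := (hf.lin_iff _).1 h1 z
      rw [lin_sum_left] at h2
      exact h2
    have h0 : ∑ a ∈ A, R a 0 = 0 := by
      have h1 : ∑ a, (σ.sum fun z c => c * R a z) = 0 := by
        simp only [Finsupp.sum]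
        rw [Finset.sum_comm]
        refine Finset.sum_eq_zero fun z _ => ?_
        rw [← Finset.mul_sum, hzero, mul_zero]
      refine Eq.trans ?_ h1
      rw [Finset.sum_filter]
      refine Finset.sum_congr rfl fun a _ => ?_
      split_ifs with h2
      · exact ((hσ a).1 h2).symm
      · exact ((hσ a).2 h2).symm
    have hall : ∀ z, ∑ a ∈ A, R a z = 0 := by
      intro z
      have h1 : ∀ a ∈ A, R a z = R a 0 * (R b z / R b 0) := by
        intro a ha
        obtain ⟨α, hα⟩ := (Finset.mem_filter.1 ha).2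
        rw [hα z, hα 0]
        have := hR0 b 0
        field_simp
      rw [Finset.sum_congr rfl h1, ← Finset.sum_mul, h0, zero_mul]
    have hTA : ∑ a ∈ A, T a = 0 := by
      have h1 : lin (∑ a ∈ A, l' a) y = 0 := by
        rw [hf.lin_iff]
        intro z
        rw [lin_sum_left]
        exact hall z
      rw [lin_sum_left] at h1
      rw [← h1]
      exact Finset.sum_congr rfl fun a _ => hTl a
    have hbA : b ∈ A := Finset.mem_filter.2 ⟨Finset.mem_univ _, 1, fun z => by rw [one_mul]⟩
    -- a vanishing subsum which does not contain the last member is empty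
    have hsub : ∀ B : Finset (Fin (m + 1)), ∑ a ∈ B, T a = 0 → Fin.last m ∉ B → B = ∅ := by
      intro B hB hlast
      have h1 : ∑ l : Fin m, (if (Fin.last m).succAbove l ∈ B then (1 : ℂ) else 0) •
          T ((Fin.last m).succAbove l) = 0 := by
        have h2 : ∑ a, (if a ∈ B then (1 : ℂ) else 0) • T a = 0 := by
          rw [← hB, ← Finset.sum_filter_add_sum_filter_not Finset.univ (fun a => a ∈ B)]
          rw [Finset.sum_congr rfl (g := fun a => T a) (fun a ha => by
            rw [if_pos (Finset.mem_filter.1 ha).2, one_smul])]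
          rw [Finset.sum_eq_zero (s := Finset.univ.filter fun a => a ∉ B) (fun a ha => by
            rw [if_neg (Finset.mem_filter.1 ha).2, zero_smul]), add_zero]
          exact Finset.sum_congr (by ext; simp) fun _ _ => rfl
        rw [Fin.sum_univ_succAbove _ (Fin.last m), if_neg hlast, zero_smul, zero_add] at h2
        exact h2
      have h3 := Fintype.linearIndependent_iff.1 hlin _ h1
      by_contra hne
      obtain ⟨a, ha⟩ := Finset.nonempty_iff_ne_empty.2 hne
      have hal : a ≠ Fin.last m := fun h => hlast (h ▸ ha)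
      obtain ⟨l, rfl⟩ := Fin.exists_succAbove_eq hal
      have h4 := h3 l
      rw [if_pos ha] at h4
      exact one_ne_zero h4
    have hlastA : Fin.last m ∈ A := by
      by_contra hcon
      have h1 := hsub A hTA hcon
      rw [h1] at hbA
      exact absurd hbA (Finset.notMem_empty _)
    have hAc : Aᶜ = ∅ := by
      refine hsub _ ?_ (by simpa using hlastA)
      have h1 := Finset.sum_add_sum_compl A T
      rw [hTA, zero_add, hsum] at h1
      exact h1
    have haA : a ∈ A := by
      by_contra hcon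
      have h1 : a ∈ Aᶜ := by simpa using hcon
      rw [hAc] at h1
      exact absurd h1 (Finset.notMem_empty _)
    obtain ⟨α, hα⟩ := (Finset.mem_filter.1 haA).2
    refine ⟨α, ?_⟩
    have h1 : lin (l' a - α • l' b) y = 0 := by
      rw [hf.lin_iff]
      intro z
      rw [lin_sub', Algebra.algebraMap_self, RingHom.id_apply]
      exact sub_eq_zero.2 (hα z)
    rw [lin_sub', sub_eq_zero] at h1
    have hTb : T b ≠ 0 := by
      rw [hTj]
      exact smul_ne_zero (hc b) (hlq0 _)
    rw [div_eq_iff hTb, hTl, hTl, h1]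

end curve

end Pool.Agent.Y691.CS
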