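import Pool.Agent.Y691.CS.Pair

/-!
Maximal special subvarieties of varieties given by nested sums of high powers of linear forms.
-/

set_option autoImplicit false

open FF MvPolynomial Pool.Agent.W603.LV Pool.Agent.W603.GR Pool.Agent.W603.GW
  Pool.Agent.W602.GT Pool.Agent.W603.GX Pool.Agent.W603.GY Pool.Agent.TH710.ND Pool.Agent.TH710.SP

namespace Pool.Agent.Y691.CS

variable {n : ℕ} {ι κ : Type}

/-- A property of the closed subvarieties of `P^n`, given by their function field `K`, dimension `w`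
and generic point `y`. -/
def VarProp (n : ℕ) : Type 1 :=
  ∀ (K : Type) [Field K] [Algebra ℂ K] (_ : ℕ) (_ : Fin (n + 1) → K), Prop

/-- The part of the subvariety where no `Q_j` vanishes is special. -/
def IsSpecial (Q : κ → MvPolynomial (Fin (n + 1)) ℂ) : VarProp n :=
  fun K _ _ w y => Special ℂ K w (OffAny Q y)

/-- The part of the subvariety where no `Q_j` vanishes is Brody-special. -/
def IsBrodySpecial (Q : κ → MvPolynomial (Fin (n + 1)) ℂ) : VarProp n :=
  fun _ _ _ _ y => ∃ f, DenseCurve Q y f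

/-- The subvariety is a linear space, and the `Q_j` define linearly independent hyperplanes in
it. -/
def IsLinComplement (Q : κ → MvPolynomial (Fin (n + 1)) ℂ) : VarProp n :=
  fun _ _ _ _ y => LinearComplement Q y

/-- The closed subvariety of `X = {F_i = 0, Q_j ≠ 0}` with generic point `y` is maximal among those
with the property `P`. -/
def MaxAmong (F : ι → MvPolynomial (Fin (n + 1)) ℂ) (Q : κ → MvPolynomial (Fin (n + 1)) ℂ)
    (P : VarProp n) (K : Type) [Field K] [Algebra ℂ K] (w : ℕ) (y : Fin (n + 1) → K) : Prop :=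
  P K w y ∧ ∀ (K' : Type) [Field K'] [Algebra ℂ K'] (w' : ℕ) (y' : Fin (n + 1) → K'),
    SubVarQ F Q K' w' y' → P K' w' y' → Inside y y' → Inside y' y

theorem Inside.hull {K K' : Type} [Field K] [Algebra ℂ K] [Field K'] [Algebra ℂ K']
    {y : Fin (n + 1) → K} {y' : Fin (n + 1) → K'} (h : Inside y y') :
    ∀ x ∈ Hull ℂ y, x ∈ Hull ℂ y' := by
  intro x hx l hl
  refine hx l ?_
  have h1 := h (lf l) ⟨1, lf_hom l⟩
  rw [val_lf, val_lf] at h1
  exact h1 hl

theorem Inside.trans {K K' K'' : Type} [Field K] [Algebra ℂ K] [Field K'] [Algebra ℂ K']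
    [Field K''] [Algebra ℂ K''] {y : Fin (n + 1) → K} {y' : Fin (n + 1) → K'}
    {y'' : Fin (n + 1) → K''} (h : Inside y y') (h' : Inside y' y'') : Inside y y'' :=
  fun G hG h0 => h G hG (h' G hG h0)

/-- being the complement of independent hyperplanes in a linear space depends only on the
subvariety -/
theorem compl_of_eq {Q : κ → MvPolynomial (Fin (n + 1)) ℂ} {K K' : Type} [Field K] [Algebra ℂ K]
    [Field K'] [Algebra ℂ K'] {y : Fin (n + 1) → K} {y' : Fin (n + 1) → K'}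
    (h : LinearComplement Q y') (h1 : Inside y y') (h2 : Inside y' y) : LinearComplement Q y := by
  obtain ⟨hvar, q, l, a, c, hl, ha, hc, hbd⟩ := h
  refine ⟨fun x hx G hG hyG => hvar x (h1.hull x hx) G hG (h2 G hG hyG), q, l, a, c, ?_, ha, hc,
    fun j x hx => hbd j x (h1.hull x hx)⟩
  rw [Fintype.linearIndependent_iff] at hl ⊢
  intro g hg b
  refine hl g ?_ b
  rw [← lin_sum_smul] at hg ⊢
  have h3 := h2 (lf (fun i => ∑ b, g b * l b i)) ⟨1, lf_hom _⟩
  rw [val_lf, val_lf] at h3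
  exact h3 hg

section main

variable {F : ι → MvPolynomial (Fin (n + 1)) ℂ} {Q : κ → MvPolynomial (Fin (n + 1)) ℂ}
  {s N H : ℕ}

theorem pos_of (hQ : ∀ j, IsNested s N H (Q j)) (hN : bnd n s H ≤ N) {K : Type} [Field K]
    [Algebra ℂ K] {w : ℕ} {y : Fin (n + 1) → K} (hy : SubVarQ F Q K w y) (j : κ) :
    0 < (Q j).totalDegree := by
  refine nested_pos (hQ j) (le_trans (by unfold bnd; omega) hN) fun h0 => hy.off j ?_
  rw [h0]
  unfold Pool.Agent.W602.GT.val
  rw [map_zero]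

theorem special_of_compl (hQ : ∀ j, IsNested s N H (Q j)) (hN : bnd n s H ≤ N) {K : Type} [Field K]
    [Algebra ℂ K] {w : ℕ} {y : Fin (n + 1) → K} (hy : SubVarQ F Q K w y)
    (h : LinearComplement Q y) :
    Special ℂ K w (OffAny Q y) ∧ ∃ f, DenseCurve Q y f := by
  obtain ⟨r, q, m, v, e, a, c, h⟩ := pair_of_compl (pos_of hQ hN hy) h
  exact ⟨h.special hy.ne hy.gen hy.dim, h.curve hy.ne⟩

/-- **Special and Brody-special subvarieties lie in linear ones.** -/
theorem exists_lin (hn : 1 ≤ n) [Finite κ] (hF : ∀ i, IsNested s N H (F i))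
    (hQ : ∀ j, IsNested s N H (Q j)) (hN : bnd n s H ≤ N) {K : Type} [Field K] [Algebra ℂ K]
    {w : ℕ} {y : Fin (n + 1) → K} (hy : SubVarQ F Q K w y)
    (hs : Special ℂ K w (OffAny Q y) ∨ ∃ f, DenseCurve Q y f) :
    ∃ (K' : Type) (_ : Field K') (_ : Algebra ℂ K') (w' : ℕ) (y' : Fin (n + 1) → K'),
      SubVarQ F Q K' w' y' ∧ Inside y y' ∧ LinearComplement Q y' ∧
        Special ℂ K' w' (OffAny Q y') ∧ ∃ f, DenseCurve Q y' f := by
  have key : ∃ (r q : ℕ) (m v : Fin r → Fin (n + 1) → ℂ) (e : Fin q → Fin r) (a : κ → Fin q)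
      (c : κ → ℂ), HullPair F Q y m v e a c := by
    rcases hs with h | ⟨f, hf⟩
    · exact hull_of_special hF hQ hN hy h
    · exact hull_of_curve hn hF hQ hN hy hf
  obtain ⟨r, q, m, v, e, a, c, h⟩ := key
  exact h.exists_sub hy.ne (fun i => (hF i).form) (fun j => (hQ j).form)

/-- **Maximal special subvarieties.** -/
theorem max_tfae (hn : 1 ≤ n) [Finite κ] (hF : ∀ i, IsNested s N H (F i))
    (hQ : ∀ j, IsNested s N H (Q j)) (hN : bnd n s H ≤ N) {K : Type} [Field K] [Algebra ℂ K]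
    {w : ℕ} {y : Fin (n + 1) → K} (hy : SubVarQ F Q K w y) :
    [MaxAmong F Q (IsSpecial Q) K w y, MaxAmong F Q (IsBrodySpecial Q) K w y,
      MaxAmong F Q (IsLinComplement Q) K w y].TFAE := by
  tfae_have 1 → 3 := by
    rintro ⟨h1, h2⟩
    obtain ⟨K', iF, iA, w', y', hy', hi, hc, hsp, hbr⟩ := exists_lin hn hF hQ hN hy (Or.inl h1)
    refine ⟨compl_of_eq hc hi (h2 K' w' y' hy' hsp hi), ?_⟩
    intro K'' _ _ w'' y'' hy'' hP hi'
    exact h2 K'' w'' y'' hy'' (special_of_compl hQ hN hy'' hP).1 hi'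
  tfae_have 2 → 3 := by
    rintro ⟨h1, h2⟩
    obtain ⟨K', iF, iA, w', y', hy', hi, hc, hsp, hbr⟩ := exists_lin hn hF hQ hN hy (Or.inr h1)
    refine ⟨compl_of_eq hc hi (h2 K' w' y' hy' hbr hi), ?_⟩
    intro K'' _ _ w'' y'' hy'' hP hi'
    exact h2 K'' w'' y'' hy'' (special_of_compl hQ hN hy'' hP).2 hi'
  tfae_have 3 → 1 := by
    rintro ⟨h1, h2⟩
    refine ⟨(special_of_compl hQ hN hy h1).1, ?_⟩
    intro K'' _ _ w'' y'' hy'' hP hi'
    obtain ⟨K', iF, iA, w', y', hy', hi, hc, -, -⟩ := exists_lin hn hF hQ hN hy'' (Or.inl hP)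
    exact hi.trans (h2 K' w' y' hy' hc (hi'.trans hi))
  tfae_have 3 → 2 := by
    rintro ⟨h1, h2⟩
    refine ⟨(special_of_compl hQ hN hy h1).2, ?_⟩
    intro K'' _ _ w'' y'' hy'' hP hi'
    obtain ⟨K', iF, iA, w', y', hy', hi, hc, -, -⟩ := exists_lin hn hF hQ hN hy'' (Or.inr hP)
    exact hi.trans (h2 K' w' y' hy' hc (hi'.trans hi))
  tfae_finish

end main

end Pool.Agent.Y691.CS
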