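import Pool.Agent.Y691.CS.Hull

/-!
Special closed subvarieties of varieties given by nested sums of high powers of linear forms are
contained in linear spaces minus independent hyperplanes.
-/

set_option autoImplicit false

open FF MvPolynomial Pool.Agent.W603.LV Pool.Agent.W603.GR Pool.Agent.W603.GW
  Pool.Agent.W602.GT Pool.Agent.W603.GX Pool.Agent.W603.GY Pool.Agent.TH710.ND Pool.Agent.TH710.SP

namespace Pool.Agent.Y691.CS

variable {n : ℕ} {ι κ : Type}

theorem lin_sum_smul {M : Type} [Field M] [Algebra ℂ M] {r : ℕ} (g : Fin r → ℂ)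
    (m : Fin r → Fin (n + 1) → ℂ) (x : Fin (n + 1) → M) :
    lin (fun i => ∑ b, g b * m b i) x = ∑ b, g b • lin (m b) x := by
  unfold lin
  simp only [map_sum, map_mul, Finset.sum_mul, Algebra.smul_def, Finset.mul_sum]
  rw [Finset.sum_comm]
  exact Finset.sum_congr rfl fun b _ => Finset.sum_congr rfl fun i _ => by ring

theorem lin_single {M : Type} [Field M] [Algebra ℂ M] (i : Fin (n + 1))
    (x : Fin (n + 1) → M) : lin (Pi.single i (1 : ℂ)) x = x i := by
  unfold lin
  rw [Finset.sum_eq_single i]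
  · simp
  · intro j _ hj
    simp [hj]
  · intro h
    exact absurd (Finset.mem_univ _) h

/-- The generic point of the linear hull. -/
theorem HullPair.gen {K : Type} [Field K] [Algebra ℂ K] {F : ι → MvPolynomial (Fin (n + 1)) ℂ}
    {Q : κ → MvPolynomial (Fin (n + 1)) ℂ} {y : Fin (n + 1) → K} {r q : ℕ}
    {m v : Fin r → Fin (n + 1) → ℂ} {e : Fin q → Fin r} {a : κ → Fin q} {c : κ → ℂ}
    (h : HullPair F Q y m v e a c) (hy0 : y ≠ 0) (hF : ∀ i, IsForm (F i))
    (hQ : ∀ j, IsForm (Q j)) :
    ∃ (K' : Type) (_ : Field K') (_ : Algebra ℂ K') (w' : ℕ) (y' : Fin (n + 1) → K'),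
      SubVarQ F Q K' w' y' ∧ LinPair Q y' m v e a c ∧
      ∀ G : MvPolynomial (Fin (n + 1)) ℂ, IsForm G →
        (Pool.Agent.W602.GT.val y' G = 0 ↔ ∀ x ∈ Hull ℂ y, Pool.Agent.W602.GT.val x G = 0) := by
  classical
  have hr : 0 < r := by
    rw [Nat.pos_iff_ne_zero]
    rintro rfl
    apply hy0
    funext i
    rw [h.frame.dec i]
    simp
  obtain ⟨lam, hlam⟩ := exists_lam ℂ r
  let s : ℂ → Fin r → ℂ := fun z b => Complex.exp (lam b * z)
  let f : ℂ → Fin (n + 1) → ℂ := fun z i => ∑ b, s z b * v b i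
  have hmem : ∀ z, f z ∈ Hull ℂ y := fun z => h.frame.mem (s z)
  have hl : ∀ z b, lin (m b) (f z) = s z b := by
    intro z b
    have h1 := lin_sum (m b) (s z) v
    simp only [Algebra.algebraMap_self, RingHom.id_apply] at h1
    simp only [f]
    rw [h1, Finset.sum_eq_single b]
    · rw [h.frame.dual, if_pos rfl, mul_one]
    · intro b' _ hb'
      rw [h.frame.dual, if_neg (Ne.symm hb'), mul_zero]
    · intro h
      exact absurd (Finset.mem_univ _) h
  have hl0 : ∀ z b, lin (m b) (f z) ≠ 0 := by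
    intro z b
    rw [hl]
    exact Complex.exp_ne_zero _
  have hf0 : f 0 ≠ 0 := by
    intro h0
    apply hl0 0 ⟨0, hr⟩
    rw [h0]
    unfold lin
    simp
  obtain ⟨j0, hj0⟩ := Function.ne_iff.1 hf0
  have hfd : ∀ j, Differentiable ℂ (fun z => f z j) := by
    intro i
    simp only [f]
    apply Differentiable.fun_sum
    intro b _
    refine Differentiable.mul_const ?_ _
    exact (differentiable_id.const_mul (lam b)).cexp
  obtain ⟨K', iF, iA, w', y', hy'0, hgen, hdim, hrel, -⟩ :=
    Pool.Agent.TH143.GT.exists_closure f isPreconnected_univ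
      (fun j z _ => (hfd j).analyticAt z) ⟨0, Set.mem_univ _, hj0⟩
  have hev : ∀ (x : Fin (n + 1) → ℂ) (G : MvPolynomial (Fin (n + 1)) ℂ),
      Pool.Agent.W602.GT.val x G = eval x G := Pool.Agent.W602.GT.val_eval
  have key : ∀ G : MvPolynomial (Fin (n + 1)) ℂ, IsForm G →
      (Pool.Agent.W602.GT.val y' G = 0 ↔ ∀ x ∈ Hull ℂ y, Pool.Agent.W602.GT.val x G = 0) := by
    intro G hG
    rw [hrel G hG]
    constructor
    · intro hz x hx
      let p : MvPolynomial (Fin r) ℂ :=
        aeval (fun i => ∑ b, C (v b i) * X b : Fin (n + 1) → MvPolynomial (Fin r) ℂ) G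
      have hp : ∀ t : Fin r → ℂ, aeval t p =
          Pool.Agent.W602.GT.val (fun i => ∑ b, v b i * t b) G := by
        intro t
        simp only [p]
        rw [← AlgHom.comp_apply, comp_aeval]
        unfold Pool.Agent.W602.GT.val
        congr 2
        funext i
        rw [map_sum]
        refine Finset.sum_congr rfl fun b _ => ?_
        rw [map_mul, aeval_C, aeval_X, Algebra.algebraMap_self, RingHom.id_apply]
      have h0 : p = 0 := by
        refine exp_indep lam hlam p fun z => ?_
        rw [hp, ← hz z (Set.mem_univ z), ← hev]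
        congr 1
        funext i
        exact Finset.sum_congr rfl fun b _ => mul_comm _ _
      have h1 := hp (fun b => lin (m b) x)
      rw [h0, map_zero] at h1
      rw [h1]
      congr 1
      funext i
      rw [h.frame.repr hx i]
      exact Finset.sum_congr rfl fun b _ => mul_comm _ _
    · intro hx z _
      rw [← hev]
      exact hx _ (hmem z)
  have keyl : ∀ l : Fin (n + 1) → ℂ, lin l y' = 0 ↔ ∀ x ∈ Hull ℂ y, lin l x = 0 := by
    intro l
    have h1 := key (lf l) ⟨1, lf_hom l⟩
    rw [val_lf] at h1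
    rw [h1]
    exact forall₂_congr fun x _ => by rw [val_lf]
  have hsub : ∀ x ∈ Hull ℂ y', x ∈ Hull ℂ y := by
    intro x hx l hl'
    exact hx l ((keyl l).2 fun x' hx' => hx' l hl')
  refine ⟨K', iF, iA, w', y', ⟨hy'0, fun i => ?_, fun j h0 => ?_, hgen, hdim⟩, ?_, key⟩
  · exact (key _ (hF i)).2 fun x hx => h.van x hx i
  · have h1 := (key _ (hQ j)).1 h0 _ (hmem 0)
    rw [h.bd j _ (hmem 0)] at h1
    exact mul_ne_zero (h.cne j) (pow_ne_zero _ (hl0 0 _)) h1
  · refine ⟨⟨?_, fun i => ?_⟩, fun x hx G hG hyG => (key G hG).1 hyG x (hsub x hx), h.inj, h.surj,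
      h.cne, h.pos, fun j x hx => h.bd j x (hsub x hx)⟩
    · rw [Fintype.linearIndependent_iff]
      intro g hg b
      rw [← lin_sum_smul] at hg
      have h1 := (keyl _).1 hg _ (h.frame.mem (Pi.single b 1))
      rw [lin_sum_smul] at h1
      have h2 : ∀ b', lin (m b') (fun i => ∑ b'', (Pi.single b (1 : ℂ) : Fin r → ℂ) b'' * v b'' i) =
          if b' = b then 1 else 0 := by
        intro b'
        have h3 := lin_sum (m b') (Pi.single b (1 : ℂ) : Fin r → ℂ) v
        simp only [Algebra.algebraMap_self, RingHom.id_apply] at h3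
        rw [h3, Finset.sum_eq_single b]
        · rw [Pi.single_eq_same, one_mul, h.frame.dual]
        · intro b'' _ hb''
          rw [Pi.single_eq_of_ne hb'', zero_mul]
        · intro h
          exact absurd (Finset.mem_univ _) h
      rw [Finset.sum_eq_single b] at h1
      · rwa [h2, if_pos rfl, smul_eq_mul, mul_one] at h1
      · intro b' _ hb'
        rw [h2, if_neg hb', smul_zero]
      · intro h
        exact absurd (Finset.mem_univ _) h
    · have h1 : lin (Pi.single i (1 : ℂ) - fun i' => ∑ b, v b i * m b i') y' = 0 := by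
        rw [keyl]
        intro x hx
        have h2 := lin_sub' (Pi.single i (1 : ℂ)) (fun i' => ∑ b, v b i * m b i') 1 x
        rw [one_smul, map_one, one_mul] at h2
        rw [h2, lin_single, lin_sum_smul, h.frame.repr hx i, sub_eq_zero]
        exact Finset.sum_congr rfl fun b _ => by rw [smul_eq_mul, mul_comm]
      have h2 := lin_sub' (Pi.single i (1 : ℂ)) (fun i' => ∑ b, v b i * m b i') 1 y'
      rw [one_smul, map_one, one_mul] at h2
      rw [h2, lin_single, lin_sum_smul, sub_eq_zero] at h1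
      rw [h1]
      exact Finset.sum_congr rfl fun b _ => by rw [Algebra.smul_def]

/-- the subvariety with generic point `y` is contained in the one with generic point `y'` -/
def Inside {K K' : Type} [Field K] [Algebra ℂ K] [Field K'] [Algebra ℂ K']
    (y : Fin (n + 1) → K) (y' : Fin (n + 1) → K') : Prop :=
  ∀ G : MvPolynomial (Fin (n + 1)) ℂ, IsForm G → Pool.Agent.W602.GT.val y' G = 0 →
    Pool.Agent.W602.GT.val y G = 0

/-- a hull pair at a subvariety which contains its hull is a linear pair -/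
theorem HullPair.lin {K : Type} [Field K] [Algebra ℂ K] {F : ι → MvPolynomial (Fin (n + 1)) ℂ}
    {Q : κ → MvPolynomial (Fin (n + 1)) ℂ} {y : Fin (n + 1) → K} {r q : ℕ}
    {m v : Fin r → Fin (n + 1) → ℂ} {e : Fin q → Fin r} {a : κ → Fin q} {c : κ → ℂ}
    (h : HullPair F Q y m v e a c)
    (hx : ∀ G : MvPolynomial (Fin (n + 1)) ℂ, IsForm G → Pool.Agent.W602.GT.val y G = 0 →
      ∀ x ∈ Hull ℂ y, Pool.Agent.W602.GT.val x G = 0) : LinPair Q y m v e a c :=
  ⟨h.frame, fun x hx' G hG hyG => hx G hG hyG x hx', h.inj, h.surj, h.cne, h.pos, h.bd⟩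

/-- **Special subvarieties are contained in linear ones.** -/
theorem HullPair.exists_sub {K : Type} [Field K] [Algebra ℂ K]
    {F : ι → MvPolynomial (Fin (n + 1)) ℂ}
    {Q : κ → MvPolynomial (Fin (n + 1)) ℂ} {y : Fin (n + 1) → K} {r q : ℕ}
    {m v : Fin r → Fin (n + 1) → ℂ} {e : Fin q → Fin r} {a : κ → Fin q} {c : κ → ℂ}
    (h : HullPair F Q y m v e a c) (hy0 : y ≠ 0) (hF : ∀ i, IsForm (F i))
    (hQ : ∀ j, IsForm (Q j)) :
    ∃ (K' : Type) (_ : Field K') (_ : Algebra ℂ K') (w' : ℕ) (y' : Fin (n + 1) → K'),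
      SubVarQ F Q K' w' y' ∧ Inside y y' ∧ LinearComplement Q y' ∧
        Special ℂ K' w' (OffAny Q y') ∧ ∃ f, DenseCurve Q y' f := by
  obtain ⟨K', iF, iA, w', y', h1, h2, h3⟩ := h.gen hy0 hF hQ
  exact ⟨K', iF, iA, w', y', h1, fun G hG hy' => h.frame.val_of_hull ((h3 G hG).1 hy'), h2.compl,
    h2.special h1.ne h1.gen h1.dim, h2.curve h1.ne⟩

end Pool.Agent.Y691.CS
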